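import Pool.Agent.TH777.Y.Ident

/-!
# A Yorioka ideal with smaller additivity and larger cofinality than the ideal of the identity

There is a ccc notion of forcing `P` which forces the combinatorial sentence `PsiFor K Ω L f`
(`PsiHolds P K Ω L f` is its literal translation into the forcing language), and this sentence
implies that `add(I_f) < add(I_id)` and `cof(I_id) < cof(I_f)`.
-/

set_option autoImplicit false

namespace Pool.Agent.Results.MP_7d369a_lc.AddCofNotIdentity

open Cardinal Pool.Agent.TH777.Y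

/-- The finite binary sequence `s` is an initial segment of `z`. -/
def IsInitial (s : List Bool) (z : ℕ → Bool) : Prop :=
  ∀ (i : ℕ) (h : i < s.length), s[i] = z i

/-- `[σ]_∞`: the points having `σ n` as an initial segment for infinitely many `n`. -/
def LimInf (σ : ℕ → List Bool) : Set (ℕ → Bool) :=
  {z | {n : ℕ | IsInitial (σ n) z}.Infinite}

/-- `x ≪ y`: for every `k` there is `m` with `x (i ^ k) ≤ y i` for all `i ≥ m`. -/
def FarBelow (x y : ℕ → ℕ) : Prop := ∀ k : ℕ, ∃ m : ℕ, ∀ i : ℕ, m ≤ i → x (i ^ k) ≤ y i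

/-- The Yorioka ideal of `f`. -/
def Yorioka (f : ℕ → ℕ) : Set (Set (ℕ → Bool)) :=
  {A | ∃ σ : ℕ → List Bool, FarBelow f (fun n => (σ n).length) ∧ A ⊆ LimInf σ}

/-- The additivity of `J`: the least cardinality of a subfamily of `J` whose union is not
in `J`. -/
noncomputable def addOf (J : Set (Set (ℕ → Bool))) : Cardinal.{0} :=
  sInf {κ | ∃ F : Set (Set (ℕ → Bool)), F ⊆ J ∧ ⋃₀ F ∉ J ∧ #F = κ}

/-- The cofinality of `J`: the least cardinality of a subfamily `F` of `J` such that every member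
of `J` is contained in a member of `F`. -/
noncomputable def cofOf (J : Set (Set (ℕ → Bool))) : Cardinal.{0} :=
  sInf {κ | ∃ F : Set (Set (ℕ → Bool)), F ⊆ J ∧ (∀ A ∈ J, ∃ B ∈ F, A ⊆ B) ∧ #F = κ}

theorem yorioka_eq (f : ℕ → ℕ) : Yorioka f = Pool.Agent.H31R3.Yor.I f := by
  ext A
  constructor
  · rintro ⟨σ, h1, h2⟩
    refine ⟨σ, fun k => Filter.eventually_atTop.2 (h1 k), fun z hz => ?_⟩
    exact Nat.frequently_atTop_iff_infinite.2 (h2 hz)
  · rintro ⟨σ, h1, h2⟩
    refine ⟨σ, fun k => Filter.eventually_atTop.1 (h1 k), fun z hz => ?_⟩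
    exact Nat.frequently_atTop_iff_infinite.1 (h2 hz)

/-- (A) There are sets `K`, `Ω`, `L`, where `Ω` is infinite, an increasing function `f`, and a ccc
notion of forcing `P` all of whose conditions force the sentence `PsiFor K Ω L f`. (B) Whenever
`PsiFor K Ω L f` holds for an increasing function `f` and an infinite set `Ω`,
`add(I_f) ≤ #K < add(I_id)` and `cof(I_id) ≤ #Ω < cof(I_f)`. -/
theorem result :
    (∃ (K Ω L : Type) (f : ℕ → ℕ) (P : Type) (_ : Preorder P), Infinite Ω ∧ StrictMono f ∧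
      Nonempty P ∧
      (∀ A : Set P, (∀ p ∈ A, ∀ q ∈ A, p ≠ q → ¬ ∃ r, r ≤ p ∧ r ≤ q) → A.Countable) ∧
      ∀ p : P, p ∈ PsiHolds P K Ω L f) ∧
    (∀ (K Ω L : Type) (f : ℕ → ℕ), Infinite Ω → StrictMono f → PsiFor K Ω L f →
      addOf (Yorioka f) ≤ #K ∧ #K < addOf (Yorioka fun n => n) ∧
      cofOf (Yorioka fun n => n) ≤ #Ω ∧ #Ω < cofOf (Yorioka f)) := by
  constructor
  · obtain ⟨K, Ω, L, P, hP, h1, h2, h3, h4⟩ := exists_forcing_id
    exact ⟨K, Ω, L, ff 0, P, hP, infinite_iff.2 h1, ff_strictMono 0, h2, h3, h4⟩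
  · intro K Ω L f hΩ hf h
    have hadd : ∀ f, addOf (Yorioka f) = Pool.Agent.H31R3.Yor.add (Pool.Agent.H31R3.Yor.I f) := by
      intro f; rw [yorioka_eq]; rfl
    have hcof : ∀ f, cofOf (Yorioka f) = Pool.Agent.H31R3.Yor.cof (Pool.Agent.H31R3.Yor.I f) := by
      intro f; rw [yorioka_eq]; rfl
    have hid : StrictMono fun n : ℕ => n := fun _ _ h => h
    rw [hadd, hadd, hcof, hcof]
    exact ⟨notCap_add hf h.1, cap_add hid h.2.2.1 h.2.2.2.1,
      capAll_cof hid h.2.2.2.2.1 h.2.2.2.2.2 (infinite_iff.1 hΩ), notCap_cof hf h.2.1⟩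

end Pool.Agent.Results.MP_7d369a_lc.AddCofNotIdentity
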